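import Pool.Agent.V1183.SV.Main

/-!
# Galois representations whose Frobenius elements at a sparse set of primes commute up to powers

Let `f` be any function. There is a sequence `T` of prime numbers, growing faster than prescribed by `f`,
and splitting completely in an infinite unramified tower `L / k`, such that the following holds for every
number field `K`, every prime number `p` and every continuous representation `ρ : G_K → GL_n(ℚ_p)` which is
unramified outside a finite set of primes.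

* (global version) If the Frobenius elements above almost all `T i` commute with each other up to powers,
  then `ρ` is abelian on the absolute Galois group of a finite extension `K'` of `K`.
* (local version) There is one finite extension `K'` of `K` (independent of the next hypothesis): if for
  almost all `i` each Frobenius element of `G_K` above `T i` has a power whose image commutes with all its
  conjugates under `ρ(G_K)`, then all the conjugates of `ρ(u)` under `ρ(G_K)` commute, for all `u` in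
  `G_K'`.

If `ρ` is everywhere unramified (or tamely ramified) then by class field theory the image of `ρ` is finite
in both cases, since `ρ(G_K')` is nilpotent, and has finite abelianizations of its open subgroups.
-/

set_option autoImplicit false

namespace Pool.Agent.Results.MP_ca71b5_nt.SparseCommutingFrobenius

open NumberField IntermediateField Module Polynomial

attribute [local instance 10] DivisionRing.toRatAlgebra

/-- the absolute Galois group of `ℚ` -/
abbrev GQ : Type := Gal(AlgebraicClosure ℚ/ℚ)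

/-- the ring of all algebraic integers -/
abbrev ZBar : Type := 𝓞 (AlgebraicClosure ℚ)

/-- `τ` lies in the inertia group at the maximal ideal `P` of the ring of all algebraic integers -/
def Inertia (P : Ideal ZBar) (τ : GQ) : Prop := ∀ x : ZBar, τ • x - x ∈ P

/-- `σ` is a (geometric) Frobenius element at the maximal ideal `P` above the prime number `q`: it induces
the inverse of `x ↦ x ^ q` on the residue field -/
def Frobenius (q : ℕ) (P : Ideal ZBar) (σ : GQ) : Prop := ∀ x : ZBar, x - (σ • x) ^ q ∈ P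

/-- `L` is a totally real Galois extension of infinite degree of the real quadratic field `k`, unramified at
all finite places, and a union of finite extensions of `ℚ` whose degrees are powers of two -/
structure UnramifiedTower (k L : IntermediateField ℚ (AlgebraicClosure ℚ)) : Prop where
  quadratic : finrank ℚ k = 2 ∧ ∃ s ∈ k,
    s ^ 2 = ((17 * 41 * 73 * 89 * 97 * 113 * 137 * 193 * 233 * 241 : ℕ) : AlgebraicClosure ℚ)
  le : k ≤ L
  infinite : ¬ FiniteDimensional ℚ L
  galois : ∀ σ : GQ, (∀ x ∈ k, σ x = x) → ∀ y ∈ L, σ y ∈ L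
  unramified : ∀ q : ℕ, q.Prime → ∀ P : Ideal ZBar, P.IsMaximal → (q : ZBar) ∈ P → ∀ τ : GQ,
    (∀ x ∈ k, τ x = x) → Inertia P τ → ∀ y ∈ L, τ y = y
  real : ∀ (φ : L →+* ℂ) (y : L), (φ y).im = 0
  two : ∀ y ∈ L, ∃ m : ℕ, finrank ℚ ℚ⟮y⟯ = 2 ^ m

/-- the prime number `q` is unramified and splits completely in `L`: all inertia elements and all Frobenius
elements above `q` fix `L` -/
def SplitsCompletely (q : ℕ) (L : IntermediateField ℚ (AlgebraicClosure ℚ)) : Prop :=
  ∀ P : Ideal ZBar, P.IsMaximal → (q : ZBar) ∈ P → ∀ σ : GQ, Inertia P σ ∨ Frobenius q P σ →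
    ∀ y ∈ L, σ y = y

/-- the property `C` holds for the Frobenius elements at the places of `K` of degree one above almost all
`T i` -/
def AtAlmostAll (K : IntermediateField ℚ (AlgebraicClosure ℚ)) (T : ℕ → ℕ)
    (C : K.fixingSubgroup → Prop) : Prop :=
  ∃ i₀ : ℕ, ∀ i ≥ i₀, ∀ P : Ideal ZBar, P.IsMaximal → (T i : ZBar) ∈ P →
    ∀ σ : K.fixingSubgroup, Frobenius (T i) P σ → C σ

/-- the property `C` holds for all elements of the absolute Galois group of `K'` -/
def Over (K K' : IntermediateField ℚ (AlgebraicClosure ℚ)) (C : K.fixingSubgroup → Prop) : Prop :=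
  ∀ σ : K.fixingSubgroup, (∀ x ∈ K', (σ : GQ) x = x) → C σ

section rep

variable {K : IntermediateField ℚ (AlgebraicClosure ℚ)} {p : ℕ} [Fact p.Prime] {n : ℕ}

/-- `ρ` is continuous and unramified outside a finite set of primes -/
def AlmostUnramified (ρ : K.fixingSubgroup →* GL (Fin n) ℚ_[p]) : Prop :=
  Continuous ρ ∧
  ∃ S : Finset ℕ, ∀ q : ℕ, q.Prime → q ∉ S → ∀ P : Ideal ZBar, P.IsMaximal → (q : ZBar) ∈ P →
    ∀ τ : K.fixingSubgroup, Inertia P τ → ρ τ = 1

/-- the images of the Frobenius elements at almost all `T i` commute up to powers: each `τ` among them has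
a power which commutes with some power of each `σ` above almost all `T i` -/
def CommuteUpToPowers (T : ℕ → ℕ) (ρ : K.fixingSubgroup →* GL (Fin n) ℚ_[p]) : Prop :=
  AtAlmostAll K T fun τ => ∃ b : ℕ, 0 < b ∧ AtAlmostAll K T fun σ => ∃ a : ℕ, 0 < a ∧
    Commute (ρ σ ^ a) (ρ τ ^ b)

/-- `x` commutes with all its conjugates under the image of `ρ` -/
def CommutesWithConjugates (ρ : K.fixingSubgroup →* GL (Fin n) ℚ_[p]) (x : GL (Fin n) ℚ_[p]) : Prop :=
  ∀ g : K.fixingSubgroup, Commute x (ρ g * x * (ρ g)⁻¹)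

end rep

section closed

variable {p : ℕ} [Fact p.Prime] {n : ℕ}

/-- the set `Z` of matrices is the set of the common zeros of a set of polynomials in the entries -/
def Closed (Z : Set (Matrix (Fin n) (Fin n) ℚ_[p])) : Prop :=
  ∃ I : Set (MvPolynomial (Fin n × Fin n) ℚ_[p]), ∀ A, A ∈ Z ↔
    ∀ F ∈ I, MvPolynomial.eval (fun v => A v.1 v.2) F = 0

/-- the generic matrix -/
noncomputable def gen : Matrix (Fin n) (Fin n) (MvPolynomial (Fin n × Fin n) ℚ_[p]) :=
  Matrix.of fun a b => MvPolynomial.X (a, b)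

/-- a matrix of constants -/
noncomputable def con (M : Matrix (Fin n) (Fin n) ℚ_[p]) :
    Matrix (Fin n) (Fin n) (MvPolynomial (Fin n × Fin n) ℚ_[p]) := M.map MvPolynomial.C

theorem eval_gen (A : Matrix (Fin n) (Fin n) ℚ_[p]) :
    (MvPolynomial.eval (fun v => A v.1 v.2)).mapMatrix (gen (p := p) (n := n)) = A := by
  ext a b
  rw [RingHom.mapMatrix_apply, Matrix.map_apply]
  unfold gen
  rw [Matrix.of_apply, MvPolynomial.eval_X]

theorem eval_con (A M : Matrix (Fin n) (Fin n) ℚ_[p]) :
    (MvPolynomial.eval (fun v => A v.1 v.2)).mapMatrix (con M) = M := by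
  ext a b
  rw [RingHom.mapMatrix_apply, Matrix.map_apply]
  unfold con
  rw [Matrix.map_apply, MvPolynomial.eval_C]

theorem closed_of_matrices {J : Type*} (X : J → Matrix (Fin n) (Fin n)
    (MvPolynomial (Fin n × Fin n) ℚ_[p])) :
    Closed {A : Matrix (Fin n) (Fin n) ℚ_[p] |
      ∀ j, (MvPolynomial.eval (fun v => A v.1 v.2)).mapMatrix (X j) = 0} := by
  refine ⟨{F | ∃ j a b, F = X j a b}, fun A => ?_⟩
  constructor
  · rintro h F ⟨j, a, b, rfl⟩
    have h1 := congrFun (congrFun (h j) a) b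
    rwa [RingHom.mapMatrix_apply, Matrix.map_apply, Matrix.zero_apply] at h1
  · intro h j
    ext a b
    rw [RingHom.mapMatrix_apply, Matrix.map_apply, Matrix.zero_apply]
    exact h _ ⟨j, a, b, rfl⟩

/-- centralizers are closed -/
theorem closed_centralizer (S : Set (Matrix (Fin n) (Fin n) ℚ_[p])) :
    Closed {A : Matrix (Fin n) (Fin n) ℚ_[p] | ∀ M ∈ S, A * M = M * A} := by
  have h := closed_of_matrices (p := p) (n := n) (J := S) fun M => gen * con M.1 - con M.1 * gen
  convert h using 3 with A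
  constructor
  · intro h M
    rw [map_sub, map_mul, map_mul, eval_gen, eval_con, h M.1 M.2, sub_self]
  · intro h M hM
    have h1 := h ⟨M, hM⟩
    rw [map_sub, map_mul, map_mul, eval_gen, eval_con] at h1
    exact sub_eq_zero.1 h1

/-- commuting with the conjugates is a closed condition -/
theorem closed_conj {J : Type*} (P Q : J → Matrix (Fin n) (Fin n) ℚ_[p]) :
    Closed {A : Matrix (Fin n) (Fin n) ℚ_[p] |
      ∀ j, A * (P j * A * Q j) = (P j * A * Q j) * A} := by
  have h := closed_of_matrices (p := p) (n := n) (J := J) fun j =>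
    gen * (con (P j) * gen * con (Q j)) - (con (P j) * gen * con (Q j)) * gen
  convert h using 3 with A
  refine forall_congr' fun j => ?_
  simp only [map_sub, map_mul, eval_gen, eval_con, sub_eq_zero]

end closed

theorem exists_field (K : IntermediateField ℚ (AlgebraicClosure ℚ)) [FiniteDimensional ℚ K]
    (U : Subgroup GQ) (hU : IsOpen (U : Set GQ)) :
    ∃ K' : IntermediateField ℚ (AlgebraicClosure ℚ), K ≤ K' ∧ FiniteDimensional ℚ K' ∧
      ∀ σ : GQ, (∀ x ∈ K', σ x = x) → σ ∈ U := by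
  obtain ⟨E, hE, hEU⟩ := (krullTopology_mem_nhds_one_iff _ _ _).1 (hU.mem_nhds U.one_mem)
  refine ⟨K ⊔ E, le_sup_left, inferInstance, fun σ hσ => hEU ?_⟩
  rw [SetLike.mem_coe, IntermediateField.mem_fixingSubgroup_iff]
  exact fun x hx => hσ x ((le_sup_right : E ≤ K ⊔ E) hx)

/-- **Main result.** -/
theorem result (f : ℕ → ℕ) :
    ∃ (T : ℕ → ℕ) (k L : IntermediateField ℚ (AlgebraicClosure ℚ)),
      (∀ i, (T i).Prime ∧ T i < T (i + 1) ∧ f (T i) < T (i + 1)) ∧
      UnramifiedTower k L ∧ (∀ i, SplitsCompletely (T i) L) ∧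
      ∀ (K : IntermediateField ℚ (AlgebraicClosure ℚ)), FiniteDimensional ℚ K →
        ∀ (p : ℕ) [Fact p.Prime] (n : ℕ) (ρ : K.fixingSubgroup →* GL (Fin n) ℚ_[p]),
          AlmostUnramified ρ →
          ∃ K' : IntermediateField ℚ (AlgebraicClosure ℚ), K ≤ K' ∧ FiniteDimensional ℚ K' ∧
            (CommuteUpToPowers T ρ → Over K K' fun σ => Over K K' fun τ => Commute (ρ σ) (ρ τ)) ∧
            (AtAlmostAll K T (fun σ => ∃ a : ℕ, 0 < a ∧ CommutesWithConjugates ρ (ρ σ ^ a)) →
              Over K K' fun u => CommutesWithConjugates ρ (ρ u) ∧ ∀ g h : K.fixingSubgroup,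
                Commute (ρ (g * u * g⁻¹)) (ρ (h * u * h⁻¹))) := by
  obtain ⟨T, k, L, hT1, hT2, htow, hrep⟩ := Pool.Agent.V1183.SV.main f
  refine ⟨T, k, L, fun i => ⟨hT1 i, ?_, ?_⟩, ⟨⟨htow.rank, htow.sqrt⟩, htow.le, htow.inf, htow.galois,
    htow.unr, htow.real, htow.two⟩, ?_, ?_⟩
  · have := hT2 i
    omega
  · have := hT2 i
    have := (hT1 i).pos
    omega
  · intro i P hP hTP σ hσ
    rcases hσ with hσ | hσ
    · exact htow.unrT i P hP hTP σ hσ
    · exact htow.split i P hP hTP σ hσ
  · intro K hK p hp n ρ hρ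
    obtain ⟨U, hU, hUK, h1⟩ := hrep K.fixingSubgroup K.fixingSubgroup_isOpen p 1 (fun _ => n)
      (fun _ => ρ) (fun _ => hρ.1) (fun _ => by
        obtain ⟨S, hS⟩ := hρ.2
        exact ⟨S, fun q hq hqS P hP hqP τ hτ hτP => hS q hq hqS P hP hqP ⟨τ, hτ⟩ hτP⟩)
    obtain ⟨K', hKK', hK', hK'U⟩ := exists_field K U hU
    -- closed conditions
    have h3 : ∀ Z : Set (Matrix (Fin n) (Fin n) ℚ_[p]), Closed Z →
        AtAlmostAll K T (fun σ => ∃ a : ℕ, 0 < a ∧ ∀ k : ℕ, 0 < k →
          ((ρ σ ^ a) ^ k : GL (Fin n) ℚ_[p]).val ∈ Z) →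
        Over K K' fun σ => (ρ σ : Matrix (Fin n) (Fin n) ℚ_[p]) ∈ Z := by
      rintro Z ⟨I, hI⟩ ⟨i0, hi0⟩ σ hσ
      rw [hI]
      intro F hF
      have hev : ∀ τ : K.fixingSubgroup, Pool.Agent.V1183.SV.ev (e := fun _ : Fin 1 => n)
          (MvPolynomial.rename (fun v => ⟨0, v⟩) F)
          (Pool.Agent.V1183.SV.mat (fun _ : Fin 1 => ρ) τ) =
          MvPolynomial.eval (fun v => (ρ τ : Matrix (Fin n) (Fin n) ℚ_[p]) v.1 v.2) F := by
        intro τ
        unfold Pool.Agent.V1183.SV.ev
        rw [MvPolynomial.eval_rename]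
        rfl
      have h4 := h1 (MvPolynomial.rename (fun v => ⟨0, v⟩) F) ⟨i0, fun i hi P hP hTP τ hτ hτP => by
        obtain ⟨a, ha, h2⟩ := hi0 i hi P hP hTP ⟨τ, hτ⟩ hτP
        refine ⟨a, ha.ne', fun k hk => ?_⟩
        have h5 := h2 k hk
        rw [← pow_mul, ← map_pow] at h5
        exact (hev _).trans ((hI _).1 h5 F hF)⟩ σ.1 (hK'U _ hσ) σ.2
      exact (hev σ).symm.trans h4
    have hcomm : ∀ {x y : GL (Fin n) ℚ_[p]}, Commute x y ↔
        (x : Matrix (Fin n) (Fin n) ℚ_[p]) * y = y * x := by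
      intro x y
      constructor
      · intro h
        have := congrArg Units.val h.eq
        rwa [Units.val_mul, Units.val_mul] at this
      · intro h
        apply Units.ext
        rw [Units.val_mul, Units.val_mul]
        exact h
    refine ⟨K', hKK', hK', ?_, ?_⟩
    · intro hT σ hσ τ hτ
      have h4 := h3 {A | ∀ M ∈ {M | ∃ u : K.fixingSubgroup, (∀ x ∈ K', (u : GQ) x = x) ∧
          M = (ρ u : Matrix (Fin n) (Fin n) ℚ_[p])}, A * M = M * A} (closed_centralizer _) (by
        obtain ⟨j0, hj0⟩ := hT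
        refine ⟨j0, fun j hj P hP hTP τ hτP => ?_⟩
        obtain ⟨b, hb, hσ⟩ := hj0 j hj P hP hTP τ hτP
        refine ⟨b, hb, fun k _ => ?_⟩
        rintro _ ⟨u, hu, rfl⟩
        have h2 := h3 {A | ∀ M ∈ ({((ρ τ ^ b : GL (Fin n) ℚ_[p]) : Matrix (Fin n) (Fin n) ℚ_[p])} :
          Set _), A * M = M * A} (closed_centralizer _) (by
            obtain ⟨i0, hi0⟩ := hσ
            refine ⟨i0, fun i hi P hP hTP σ hσP => ?_⟩
            obtain ⟨a, ha, h3⟩ := hi0 i hi P hP hTP σ hσP
            refine ⟨a, ha, fun l _ => ?_⟩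
            rintro _ rfl
            exact hcomm.1 (h3.pow_left l)) u hu _ rfl
        exact hcomm.1 ((hcomm.2 h2).symm.pow_left k)) τ hτ
      exact (hcomm.2 (h4 _ ⟨σ, hσ, rfl⟩)).symm
    · intro hT u hu
      have h4 := h3 {A | ∀ g : K.fixingSubgroup, A * ((ρ g : Matrix (Fin n) (Fin n) ℚ_[p]) * A *
          ((ρ g)⁻¹ : GL (Fin n) ℚ_[p]).val) = ((ρ g : Matrix (Fin n) (Fin n) ℚ_[p]) * A *
          ((ρ g)⁻¹ : GL (Fin n) ℚ_[p]).val) * A} (closed_conj _ _) (by
        obtain ⟨i0, hi0⟩ := hT
        refine ⟨i0, fun i hi P hP hTP σ hσP => ?_⟩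
        obtain ⟨a, ha, h5⟩ := hi0 i hi P hP hTP σ hσP
        refine ⟨a, ha, fun k _ => ?_⟩
        intro g
        have h6 : Commute ((ρ σ ^ a) ^ k) (ρ g * (ρ σ ^ a) ^ k * (ρ g)⁻¹) := by
          rw [← conj_pow]
          exact (h5 g).pow_pow k k
        have h7 := hcomm.1 h6
        rwa [Units.val_mul, Units.val_mul] at h7) u hu
      have h5 : CommutesWithConjugates ρ (ρ u) := by
        intro g
        apply hcomm.2
        rw [Units.val_mul, Units.val_mul]
        exact h4 g
      refine ⟨h5, fun g h => ?_⟩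
      have h6 := h5 (g⁻¹ * h)
      have h7 : ∀ x : K.fixingSubgroup, ρ (x * u * x⁻¹) = ρ x * ρ u * (ρ x)⁻¹ := by
        intro x
        rw [map_mul, map_mul, map_inv]
      rw [h7, h7]
      have h8 := congrArg (fun z => ρ g * z * (ρ g)⁻¹) h6.eq
      change ρ g * ρ u * (ρ g)⁻¹ * (ρ h * ρ u * (ρ h)⁻¹) =
        ρ h * ρ u * (ρ h)⁻¹ * (ρ g * ρ u * (ρ g)⁻¹)
      rw [map_mul, map_inv] at h8
      calc ρ g * ρ u * (ρ g)⁻¹ * (ρ h * ρ u * (ρ h)⁻¹) =
          ρ g * (ρ u * ((ρ g)⁻¹ * ρ h * ρ u * ((ρ g)⁻¹ * ρ h)⁻¹)) * (ρ g)⁻¹ := by group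
        _ = ρ g * ((ρ g)⁻¹ * ρ h * ρ u * ((ρ g)⁻¹ * ρ h)⁻¹ * ρ u) * (ρ g)⁻¹ := h8
        _ = _ := by group

end Pool.Agent.Results.MP_ca71b5_nt.SparseCommutingFrobenius
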